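import Mathlib
import Pool.Agent.H410R3.KS.Defs
import Pool.Agent.H410R3.KS.Main

/-!
# MP_632c34_an: topological conjugacy of Kupka-Smale diffeomorphisms is not Borel

The closed manifold is the two-dimensional torus `Circle × Circle`; the smoothness class `r` is
arbitrary in `{1, 2, …, ∞}`.

Idea: `F(θ, x) = (θ + α, f(x))` with `α` irrational and `f` a circle diffeomorphism has no periodic
point, so it is Kupka-Smale. The open arcs moved by `f` are ordered like a countable linear order
`L`; isomorphic orders give conjugate maps, and a conjugacy between the maps of `L` and `L'` gives a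
relation between `L` and `L'` that preserves well-foundedness. The pairs `(ω^L, ω^L (1 + η))` then
reduce a non-Borel set (well-foundedness of trees) to conjugacy, continuously in the `C^r` topology.
-/

open scoped Manifold ContDiff
open Pool.Agent.H410R3.KS

namespace Pool.Agent.Results.MP_632c34_an.TorusNotBorel

/-- For `M = S¹ × S¹` and every `r ∈ {1, 2, …, ∞}` the relation of topological conjugacy on the
space `KS^r(M)` of the Kupka-Smale `C^r` diffeomorphisms, with the `C^r` topology, is not a Borel
subset of `KS^r(M) × KS^r(M)`. -/
theorem result (r : ℕ∞) (_hr : 1 ≤ r) :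
    ¬ ConjIsBorel ((𝓡 1).prod (𝓡 1)) (Circle × Circle) r :=
  main r

end Pool.Agent.Results.MP_632c34_an.TorusNotBorel
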